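import Pool.Agent.H741R2.LWMain

/-!
# Throughput scheduling with release dates, parameterized by the largest processing time

`1 | r_j | ∑ U_j` and `1 | r_j | ∑ w_j U_j`, parameterized by `p_max`, are `W[1]`-hard under
fpt-reductions, and neither is in `XP` unless `P = NP`.  The reduction is polynomial-time and its
instances have `p_max ≤ 13`: time is cut by jobs of length 1 into gaps of length 19 or 18; two
classes of jobs (lengths 10, 13 and 7, 5) with nested windows copy the bits of an assignment
through the blocks of gaps, and a job of length 2 for each clause fits only into a gap of length 19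
with bit 1.
-/

namespace Pool.Agent.Results.MP_4ed2ca_lc.ThroughputW1Hard

open Pool.Agent.NPC Pool.Agent.H557R2.Fpt Pool.Agent.H741R2.LW

/-- **Both problems are `W[1]`-hard with respect to `p_max`, and if one of them is in `XP`, then
`P = NP`.** -/
theorem result :
    W1Hard pLate ∧ W1Hard pWLate ∧
      (InXP pLate ∨ InXP pWLate → ∀ L : Set (List Bool), InNP L → InP L) :=
  ⟨w1Hard_late, w1Hard_wlate, fun h => h.elim xp_late xp_wlate⟩

end Pool.Agent.Results.MP_4ed2ca_lc.ThroughputW1Hard
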